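import Mathlib

set_option autoImplicit false

namespace Pool.Agent.KS6_46.RT

open Filter Topology Set Classical

universe u
variable {K : Type u} [Inhabited K] {A B : Set K}

abbrev L (K : Type u) := Fin 3 × (K ⊕ ℝ)

def l0 : L K := (1, .inl default)

def cur (f : ℝ → L K) (t : ℝ) (l : L K) : Prop := ∀ᶠ s in 𝓝[<] t, f s = l

/-- dyadic rationals -/
def Dy (t : ℝ) : Prop := ∃ (n : ℤ) (m : ℕ), t = n / 2 ^ m

/-- a well-ordering of `K ⊕ ℝ` in which `K` is an initial segment -/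
def wr : K ⊕ ℝ → K ⊕ ℝ → Prop := Sum.Lex WellOrderingRel WellOrderingRel

instance : IsWellOrder (K ⊕ ℝ) wr :=
  inferInstanceAs (IsWellOrder (K ⊕ ℝ) (Sum.Lex WellOrderingRel WellOrderingRel))

/-- The labels which are allowed at the height `t` beside the current label `l`. The set `A` of
marked elements of `K` decides whether a path with the label `(2, k)` may be left with the label
`(0, t)` at all rational heights `t`, or only at the dyadic ones. -/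
def sd (A : Set K) (l : L K) (t : ℝ) (m : L K) : Prop :=
  (m.1 = 1 ∧ (m.2 = .inr t ∨ ∃ k, m.2 = .inl k)) ∨ (m.1 = 2 ∧ wr m.2 l.2) ∨
    (m = (0, .inr t) ∧ (l.1 = 0 ∨ l.1 = 2 ∧ ¬Irrational t ∧ ∀ k ∉ A, l.2 = .inl k → Dy t))

def al (A : Set K) (f : ℝ → L K) (t : ℝ) (m : L K) : Prop :=
  cur f t m ∨ (m.1 = 1 ∧ (m.2 = .inr t ∨ ∃ k, m.2 = .inl k)) ∨ ∃ l, cur f t l ∧ sd A l t m

structure Good (A : Set K) (f : ℝ → L K) (h : ℝ) : Prop where
  low : ∃ T, ∀ t < T, t < h → f t = l0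
  rc : ∀ t < h, ∀ᶠ s in 𝓝[>] t, f s = f t
  al : ∀ t < h, al A f t (f t)
  fin : {t | t < h ∧ (f t).1 ≠ 0 ∧ ¬cur f t (f t)}.Finite

theorem Dy.not_irrational {t : ℝ} (h : Dy t) : ¬Irrational t := by
  obtain ⟨n, m, rfl⟩ := h
  exact fun h => h ⟨n / 2 ^ m, by push_cast; rfl⟩

theorem exists_dy {a b : ℝ} (h : a < b) : ∃ r, Dy r ∧ a < r ∧ r < b := by
  obtain ⟨m, hm⟩ := exists_pow_lt_of_lt_one (sub_pos.2 h) (by norm_num : (1 / 2 : ℝ) < 1)
  have p : (0 : ℝ) < 2 ^ m := by positivity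
  rw [one_div, inv_pow] at hm
  refine ⟨((⌊a * 2 ^ m⌋ + 1 : ℤ) : ℝ) / 2 ^ m, ⟨_, m, rfl⟩, ?_, ?_⟩
  · rw [lt_div_iff₀ p]
    push_cast
    exact Int.lt_floor_add_one _
  · rw [div_lt_iff₀ p]
    push_cast
    have h1 := Int.floor_le (a * 2 ^ m)
    have h2 : 1 < (b - a) * 2 ^ m := by
      rw [← inv_mul_cancel₀ p.ne']
      exact mul_lt_mul_of_pos_right hm p
    linarith

theorem exists_not_dy {a b : ℝ} (h : a < b) : ∃ r, ¬Dy r ∧ ¬Irrational r ∧ a < r ∧ r < b := by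
  obtain ⟨r, ⟨n, m, rfl⟩, h1, h2⟩ := exists_dy (sub_lt_sub_right h (1 / 3))
  refine ⟨n / 2 ^ m + 1 / 3, ?_, fun i => i ⟨n / 2 ^ m + 1 / 3, by push_cast; rfl⟩,
    by linarith, by linarith⟩
  rintro ⟨n', m', e⟩
  have p : (2 : ℝ) ^ m ≠ 0 := by positivity
  have p' : (2 : ℝ) ^ m' ≠ 0 := by positivity
  have e2 : 3 * (n' * 2 ^ m - n * 2 ^ m' : ℝ) = 2 ^ (m + m') := by
    rw [pow_add]
    field_simp at e
    linarith
  have e3 : (3 : ℤ) * (n' * 2 ^ m - n * 2 ^ m') = 2 ^ (m + m') := by exact_mod_cast e2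
  have e4 : (3 : ℤ) ∣ 2 ^ (m + m') := ⟨_, e3.symm⟩
  have e5 : (3 : ℤ) ∣ 2 := (Int.prime_three.dvd_of_dvd_pow e4)
  omega

omit [Inhabited K] in
theorem cur_uniq {f : ℝ → L K} {t : ℝ} {l m : L K} (a : cur f t l) (b : cur f t m) : l = m :=
  let ⟨_, c, d⟩ := (a.and b).exists
  c.symm.trans d

omit [Inhabited K] in
theorem cur_congr {f g : ℝ → L K} {t : ℝ} (e : ∀ s < t, f s = g s) : cur f t = cur g t :=
  funext fun _ => propext (eventually_congr (eventually_nhdsWithin_of_forall fun s h => by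
    rw [e s h]))

omit [Inhabited K] in
theorem al_congr {f g : ℝ → L K} {t : ℝ} (e : ∀ s < t, f s = g s) : al A f t = al A g t := by
  unfold al
  rw [cur_congr e]

theorem Good.congr {f g : ℝ → L K} {h r : ℝ} (a : Good A f h) (l : r ≤ h)
    (e : ∀ s < r, f s = g s) : Good A g r := by
  have c : ∀ t < r, ∀ s < t, f s = g s := fun t p s q => e s (q.trans p)
  refine ⟨a.low.imp fun T k t p q => e t q ▸ k t p (q.trans_le l), fun t p => ?_, fun t p => ?_,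
    a.fin.subset fun t ⟨p, q⟩ => ⟨p.trans_le l, by rwa [e t p, cur_congr (c t p)]⟩⟩
  · filter_upwards [a.rc t (p.trans_le l), nhdsWithin_le_nhds (Iio_mem_nhds p)] with s k q
    rw [← e s q, ← e t p, k]
  · rw [← e t p, ← al_congr (c t p)]
    exact a.al t (p.trans_le l)

theorem Good.ext {f : ℝ → L K} {h : ℝ} (a : Good A f h) {m : L K} (b : RT.al A f h m)
    (H : ℝ) : Good A (fun t => if t < h then f t else m) H := by
  have c : Good A (fun t => if t < h then f t else m) h := a.congr le_rfl fun s p => by simp [p]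
  have d : ∀ t, h < t → cur (fun t => if t < h then f t else m) t (if t < h then f t else m) :=
    fun t p => by
      filter_upwards [nhdsWithin_le_nhds (Ioi_mem_nhds p)] with s q
      simp [p.not_gt, (show h < s from q).not_gt]
  obtain ⟨T, k⟩ := c.low
  refine ⟨⟨min T h, fun t p _ => k t (lt_min_iff.1 p).1 (lt_min_iff.1 p).2⟩, fun t _ => ?_,
    fun t _ => ?_, (c.fin.insert h).subset fun t ⟨_, p, q⟩ => ?_⟩
  · by_cases p : t < h
    · exact c.rc t p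
    · exact eventually_nhdsWithin_of_forall fun s q => by
        simp [p, ((not_lt.1 p).trans_lt q).not_gt]
  · rcases lt_trichotomy t h with p | rfl | p
    exacts [c.al t p, by rwa [if_neg (lt_irrefl _), al_congr fun s p => if_pos p], .inl (d t p)]
  · rcases lt_trichotomy t h with r | rfl | r
    exacts [.inr ⟨r, p, q⟩, .inl rfl, (q (d t r)).elim]

theorem Good.code {f : ℝ → L K} {h t r : ℝ} (a : Good A f h) (p : t < h) (c : (f t).1 ≠ 2)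
    (e : (f t).2 = .inr r) : r ≤ t := by
  refine le_of_not_gt fun l => ?_
  let S := {s | s ≤ t ∧ ∀ v ∈ Icc s t, f v = f t}
  have n : t ∈ S := ⟨le_rfl, fun v q => by rw [le_antisymm q.2 q.1]⟩
  obtain ⟨T, k⟩ := a.low
  have b : BddBelow S := ⟨T, fun s q => le_of_not_gt fun w => by
    have := (q.2 s ⟨le_rfl, q.1⟩).symm.trans (k s w (q.1.trans_lt p))
    simp [this, l0] at e⟩
  have i : sInf S ≤ t := csInf_le b n
  have j : ∀ v ∈ Ioc (sInf S) t, f v = f t := fun v q =>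
    let ⟨s, a, w⟩ := exists_lt_of_csInf_lt ⟨t, n⟩ q.1
    a.2 v ⟨w.le, q.2⟩
  have m : f (sInf S) = f t := i.eq_or_lt.elim (congrArg f) fun w =>
    let ⟨v, x, y⟩ := ((a.rc _ (w.trans p)).and (Ioc_mem_nhdsGT w)).exists
    x.symm.trans (j v y)
  have : cur f (sInf S) (f t) := by
    have := a.al _ (i.trans_lt p)
    have w := (i.trans_lt l).ne'
    rw [m] at this
    rcases this with z | z | ⟨_, -, z | z | z⟩
    exacts [z, by simp [e, w] at z, by simp [e, w] at z, (c z.1).elim, by simp [z.1, w.symm] at e]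
  obtain ⟨s, x, y⟩ := mem_nhdsLT_iff_exists_Ico_subset.1 this
  refine (csInf_le b ⟨(le_of_lt x).trans i, fun v q => ?_⟩).not_gt x
  rcases lt_trichotomy v (sInf S) with w | rfl | w
  exacts [y ⟨q.1, w⟩, m, j v ⟨w, q.2⟩]

variable (A) in
structure T where
  h : ℝ
  f : ℝ → L K
  good : Good A f h
  norm : ∀ t, h ≤ t → f t = l0

instance : PartialOrder (T A) where
  le x y := x.h ≤ y.h ∧ ∀ t < x.h, x.f t = y.f t
  le_refl _ := ⟨le_rfl, fun _ _ => rfl⟩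
  le_trans _ _ _ a b := ⟨a.1.trans b.1, fun t p => (a.2 t p).trans (b.2 t (p.trans_le a.1))⟩
  le_antisymm := by
    rintro ⟨h, f, _, n⟩ ⟨h', f', _, n'⟩ a b
    obtain rfl : h = h' := a.1.antisymm b.1
    obtain rfl : f = f' := funext fun t => (lt_or_ge t h).elim (a.2 t) fun p =>
      (n t p).trans (n' t p).symm
    rfl

noncomputable def mk {g : ℝ → L K} {H : ℝ} (a : Good A g H) : T A :=
  ⟨H, fun t => if t < H then g t else l0, a.congr le_rfl fun s p => by simp [p],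
    fun t p => if_neg p.not_gt⟩

theorem le_of_h {x y z : T A} (a : x ≤ z) (b : y ≤ z) (c : x.h ≤ y.h) : x ≤ y :=
  ⟨c, fun t p => (a.2 t p).trans (b.2 t (p.trans_le c)).symm⟩

theorem lt_iff {x y : T A} : x < y ↔ x ≤ y ∧ x.h < y.h :=
  ⟨fun a => ⟨a.le, lt_of_not_ge fun b => a.not_ge (le_of_h le_rfl a.le b)⟩,
    fun a => a.1.lt_of_ne fun e => a.2.ne (e ▸ rfl)⟩

theorem res (x : T A) {r : ℝ} (l : r ≤ x.h) : ∃ p ≤ x, p.h = r :=
  ⟨mk (x.good.congr l fun _ _ => rfl), ⟨l, fun _ p => if_pos p⟩, rfl⟩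

theorem mid {x w : T A} (a : x ≤ w) {r : ℝ} (p : x.h < r) (q : r < w.h) :
    ∃ p, x < p ∧ p < w ∧ p.h = r := by
  obtain ⟨y, b, rfl⟩ := res w q.le
  exact ⟨y, lt_iff.2 ⟨le_of_h a b p.le, p⟩, lt_iff.2 ⟨b, q⟩, rfl⟩

theorem ext (x : T A) {m : L K} (a : al A x.f x.h m) {H : ℝ} (l : x.h < H) :
    ∃ y, x < y ∧ y.h = H ∧ y.f x.h = m :=
  ⟨mk (x.good.ext a H), lt_iff.2 ⟨⟨l.le, fun t p => by simp [mk, p, p.trans l]⟩, l⟩, rfl,
    by simp [mk, l]⟩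

theorem near {x y : T A} (a : x < y) : ∃ w, x < w ∧ w ≤ y ∧ ∀ t ∈ Ico x.h w.h, y.f t = y.f x.h := by
  have l := (lt_iff.1 a).2
  obtain ⟨r, p, q⟩ := mem_nhdsGT_iff_exists_Ioo_subset.1 (y.good.rc _ l)
  obtain ⟨w, b, e⟩ := res y (min_le_right r y.h)
  have : x.h < w.h := e ▸ lt_min p l
  exact ⟨w, lt_iff.2 ⟨le_of_h a.le b this.le, this⟩, b, fun t k => k.1.eq_or_lt.elim
    (fun e => e ▸ rfl) fun j => q ⟨j, (lt_min_iff.1 (e ▸ k.2)).1⟩⟩

theorem comp {x y z : T A} (a : x < y) (b : x < z) :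
    y.f x.h = z.f x.h ↔ ∃ w, x < w ∧ w ≤ y ∧ w ≤ z := by
  refine ⟨fun e => ?_, fun ⟨w, c, d, e⟩ =>
    (d.2 _ (lt_iff.1 c).2).symm.trans (e.2 _ (lt_iff.1 c).2)⟩
  wlog k : ∃ v w, v.h ≤ w.h ∧ (x < v ∧ v ≤ y ∧ ∀ t ∈ Ico x.h v.h, y.f t = y.f x.h) ∧
      x < w ∧ w ≤ z ∧ ∀ t ∈ Ico x.h w.h, z.f t = z.f x.h generalizing y z
  · obtain ⟨v, hv⟩ := near a
    obtain ⟨w, hw⟩ := near b
    exact (this b a e.symm ⟨w, v, le_of_not_ge fun l => k ⟨v, w, l, hv, hw⟩, hw, hv⟩).imp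
      fun _ h => ⟨h.1, h.2.2, h.2.1⟩
  obtain ⟨v, w, l, ⟨c, d, i⟩, -, j, k⟩ := k
  refine ⟨v, c, d, l.trans j.1, fun t p => (d.2 t p).trans ((lt_or_ge t x.h).elim
    (fun q => (a.le.2 t q).symm.trans (b.le.2 t q)) fun q => ?_)⟩
  rw [i t ⟨q, p⟩, k t ⟨q, p.trans_le l⟩, e]

theorem meet (x y : T A) : ∃ m, IsGLB {x, y} m := by
  let S := {r | r ≤ x.h ∧ r ≤ y.h ∧ ∀ t < r, x.f t = y.f t}
  obtain ⟨a, ha⟩ := x.good.low
  obtain ⟨b, hb⟩ := y.good.low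
  have n : S.Nonempty := ⟨min (min a b) (min x.h y.h), by simp, by simp, fun t p => by
    simp only [lt_min_iff] at p
    rw [ha t p.1.1 p.2.1, hb t p.1.2 p.2.2]⟩
  obtain ⟨m, c, e⟩ := res x (csSup_le n fun r p => p.1)
  have d : BddAbove S := ⟨x.h, fun r p => p.1⟩
  refine ⟨m, ?_, fun z hz => le_of_h (hz (.inl rfl)) c (e ▸ le_csSup d ⟨(hz (.inl rfl)).1,
    (hz (.inr rfl)).1, fun t p => ((hz (.inl rfl)).2 t p).symm.trans ((hz (.inr rfl)).2 t p)⟩)⟩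
  rintro _ (rfl | rfl)
  · exact c
  refine ⟨e ▸ csSup_le n fun r p => p.2.1, fun t p => (c.2 t p).trans ?_⟩
  obtain ⟨r, q, w⟩ := exists_lt_of_lt_csSup n (e ▸ p)
  exact q.2.2 t w

theorem lim {x : ℕ → T A} (m : StrictMono x) {B : ℝ} (b : ∀ n, (x n).h ≤ B)
    (r : ∀ n, ∀ t ∈ Ico (x n).h (x (n + 1)).h, ((x (n + 1)).f t).1 = 0) : ∃ z, ∀ n, x n ≤ z := by
  let g := fun t => if h : ∃ n, t < (x n).h then (x h.choose).f t else l0
  have e : ∀ n, ∀ t < (x n).h, (x n).f t = g t := fun n t p => by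
    have h : ∃ n, t < (x n).h := ⟨n, p⟩
    simp only [g, dif_pos h]
    rcases le_total n h.choose with l | l
    exacts [(m.monotone l).2 t p, ((m.monotone l).2 t h.choose_spec).symm]
  have G := fun n => (x n).good.congr le_rfl (e n)
  have d : BddAbove (range fun n => (x n).h) := ⟨B, forall_mem_range.2 b⟩
  have k : ∀ t < ⨆ n, (x n).h, ∃ n, t < (x n).h := fun t => exists_lt_of_lt_ciSup
  obtain ⟨a, ha⟩ := (G 0).low
  have : Good A g (⨆ n, (x n).h) := ⟨⟨min a (x 0).h, fun t p _ => ha t (lt_min_iff.1 p).1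
    (lt_min_iff.1 p).2⟩, fun t p => (k t p).elim fun n => (G n).rc t,
      fun t p => (k t p).elim fun n => (G n).al t, (G 0).fin.subset fun t ⟨p, q⟩ => ⟨by
        obtain ⟨n, l⟩ := k t p
        induction n with
        | zero => exact l
        | succ n ih => exact ih (lt_of_not_ge fun w => q.1 (e _ t l ▸ r n t ⟨w, l⟩)), q⟩⟩
  exact ⟨mk this, fun n => ⟨le_ciSup d n, fun t p =>
    (e n t p).trans (if_pos (p.trans_le (le_ciSup d n))).symm⟩⟩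

theorem side (φ : T A ≃o T B) {x y : T A} (a : x < y) : ∃ w, x < w ∧ w ≤ y ∧ ∀ p, x < p → p < w →
    (∀ t ∈ Ico x.h p.h, p.f t = y.f x.h) ∧ cur p.f p.h (y.f x.h) ∧ ∀ m ≠ y.f x.h, al A p.f p.h m →
      ∃ z, p < z ∧ z.h = y.h ∧ z.f p.h = m ∧ (φ z).f (φ p).h ≠ (φ y).f (φ x).h ∧
        cur (φ z).f (φ p).h ((φ y).f (φ x).h) ∧
          sd B ((φ y).f (φ x).h) (φ p).h ((φ z).f (φ p).h) := by
  have N : ∀ {C : Set K} {x y : T C}, x < y → ∃ w, x < w ∧ w ≤ y ∧ ∀ p, x < p → p < w →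
      (∀ t ∈ Ico x.h p.h, p.f t = y.f x.h) ∧ cur p.f p.h (y.f x.h) ∧ y.f p.h = y.f x.h :=
    fun {C x y} a => (near a).imp fun w h => ⟨h.1, h.2.1, fun p b c => by
      have k : ∀ t ∈ Ico x.h p.h, p.f t = y.f x.h := fun t q =>
        ((c.le.trans h.2.1).2 t q.2).trans (h.2.2 t ⟨q.1, q.2.trans (lt_iff.1 c).2⟩)
      exact ⟨k, mem_of_superset (Ico_mem_nhdsLT (lt_iff.1 b).2) k,
        h.2.2 _ ⟨b.le.1, (lt_iff.1 c).2⟩⟩⟩
  obtain ⟨v, v1, v2, hv⟩ := N a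
  obtain ⟨u, u1, u2, hu⟩ := N (φ.lt_iff_lt.2 a)
  obtain ⟨u, rfl⟩ := φ.surjective u
  simp only [φ.lt_iff_lt, φ.le_iff_le] at u1 u2
  obtain ⟨w, w1, w2, w3⟩ : ∃ w, x < w ∧ w ≤ v ∧ w ≤ u := (le_total v.h u.h).elim
    (fun l => ⟨v, v1, le_rfl, le_of_h v2 u2 l⟩) fun l => ⟨u, u1, le_of_h u2 v2 l, le_rfl⟩
  refine ⟨w, w1, w2.trans v2, fun p b c => ?_⟩
  obtain ⟨i, j, k⟩ := hv p b (c.trans_le w2)
  obtain ⟨-, j', k'⟩ := hu (φ p) (φ.lt_iff_lt.2 b) (φ.lt_iff_lt.2 (c.trans_le w3))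
  have py : p < y := c.trans_le (w2.trans v2)
  refine ⟨i, j, fun m n l => ?_⟩
  obtain ⟨z, z1, z2, z3⟩ := ext p l (lt_iff.1 py).2
  have z4 := φ.lt_iff_lt.2 z1
  have : (φ z).f (φ p).h ≠ (φ y).f (φ x).h := fun e => by
    obtain ⟨t, t1, t2, t3⟩ := (comp z4 (φ.lt_iff_lt.2 py)).1 (e.trans k'.symm)
    obtain ⟨t, rfl⟩ := φ.surjective t
    simp only [φ.lt_iff_lt, φ.le_iff_le] at t1 t2 t3
    exact n (z3.symm.trans (((comp z1 py).2 ⟨t, t1, t2, t3⟩).trans k))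
  rw [cur_congr z4.le.2] at j'
  refine ⟨z, z1, z2, z3, this, j', ?_⟩
  rcases (φ z).good.al _ (lt_iff.1 z4).2 with s | s | ⟨l, s, s'⟩
  exacts [(this (cur_uniq s j')).elim, .inl s, cur_uniq s j' ▸ s']

theorem red (φ : T A ≃o T B) {x y : T A} (a : x < y) (b : (y.f x.h).1 = 0) :
    ((φ y).f (φ x).h).1 = 0 := by
  by_contra c
  let P := fun p : T A × T A => p.1 < p.2 ∧ p.2.h = y.h ∧ (p.2.f p.1.h).1 = 0 ∧
    ((φ p.2).f (φ p.1).h).1 ≠ 0
  let R := fun p q : T A × T A => p.1 < q.1 ∧ q.1 ≤ p.2 ∧ (∀ t ∈ Ico p.1.h q.1.h, (q.1.f t).1 = 0) ∧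
    ¬cur (φ q.2).f (φ q.1).h ((φ q.2).f (φ q.1).h)
  have S : ∀ p, P p → ∃ q, P q ∧ R p q := fun ⟨x, y⟩ ⟨a, e, b, c⟩ => by
    obtain ⟨w, w1, w2, k⟩ := side φ a
    obtain ⟨r, r1, r2, r3⟩ := exists_irrational_btwn (lt_iff.1 (φ.lt_iff_lt.2 w1)).2
    obtain ⟨p, p1, p2, rfl⟩ := mid (φ.lt_iff_lt.2 w1).le r2 r3
    obtain ⟨p, rfl⟩ := φ.surjective p
    simp only [φ.lt_iff_lt] at p1 p2
    obtain ⟨i, j, k⟩ := k p p1 p2
    obtain ⟨z, z1, z2, z3, z4, z5, z6⟩ := k (0, .inr p.h) (fun e => (y.good.code (lt_iff.1 a).2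
      (by rw [← e]; simp) (by rw [← e])).not_gt (lt_iff.1 p1).2)
        (.inr (.inr ⟨_, j, .inr (.inr ⟨rfl, .inl b⟩)⟩))
    refine ⟨(p, z), ⟨z1, z2.trans e, by rw [z3], fun e => ?_⟩, p1, p2.le.trans w2,
      fun t q => (i t q).symm ▸ b, fun e => z4 (cur_uniq e z5)⟩
    rcases z6 with s | s | ⟨-, s | s⟩
    exacts [by simp [s.1] at e, by simp [s.1] at e, c s, s.2.1 r1]
  choose! F F1 F2 using S
  have k : ∀ n, P (F^[n] (x, y)) := fun n => by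
    induction n with
    | zero => exact ⟨a, rfl, b, c⟩
    | succ n ih => exact Function.iterate_succ_apply' F n _ ▸ F1 _ ih
  have r : ∀ n, R (F^[n] (x, y)) (F^[n + 1] (x, y)) := fun n =>
    Function.iterate_succ_apply' F n _ ▸ F2 _ (k n)
  have m : StrictMono fun n => (F^[n] (x, y)).1 := strictMono_nat_of_lt_succ fun n => (r n).1
  obtain ⟨z, hz⟩ := lim m (fun n => (k n).1.le.1.trans_eq (k n).2.1) fun n => (r n).2.2.1
  refine infinite_of_injective_forall_mem (f := fun n => (φ (F^[n + 1] (x, y)).1).h)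
    (strictMono_nat_of_lt_succ fun n => (lt_iff.1 (φ.lt_iff_lt.2 (r _).1)).2).injective
    (fun n => ?_) (φ z).good.fin
  have l := φ.lt_iff_lt.2 (r (n + 1)).1
  have u := φ.le_iff_le.2 (hz (n + 2))
  have v := φ.le_iff_le.2 (r (n + 1)).2.1
  have e := (comp (l.trans_le u) (l.trans_le v)).2 ⟨_, l, u, v⟩
  refine ⟨(lt_iff.1 (l.trans_le u)).2, e ▸ (k (n + 1)).2.2.2, ?_⟩
  rw [e, ← cur_congr (l.trans_le u).le.2, cur_congr (l.trans_le v).le.2]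
  exact (r n).2.2.2

theorem two (φ : T A ≃o T B) {x y : T A} (a : x < y) (b : (y.f x.h).1 = 2) :
    ((φ y).f (φ x).h).1 ≠ 1 := fun c => by
  obtain ⟨w, w1, -, k⟩ := side φ a
  obtain ⟨r, r1, r2, r3⟩ := exists_dy (lt_iff.1 w1).2
  obtain ⟨p, p1, p2, rfl⟩ := mid w1.le r2 r3
  obtain ⟨-, j, k⟩ := k p p1 p2
  obtain ⟨z, z1, -, z3, -, -, z6⟩ := k (0, .inr p.h) (fun e => by simp [← e] at b)
    (.inr (.inr ⟨_, j, .inr (.inr ⟨rfl, .inr ⟨b, r1.not_irrational, fun _ _ _ => r1⟩⟩)⟩))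
  have := red φ z1 (by rw [z3])
  rcases z6 with s | s | ⟨-, s | s⟩ <;> simp_all

theorem cls (φ : T A ≃o T B) {x y : T A} (a : x < y) : ((φ y).f (φ x).h).1 = (y.f x.h).1 := by
  have a1 := red φ a
  have a2 := two φ a
  have a3 := red φ.symm (φ.lt_iff_lt.2 a)
  have a4 := two φ.symm (φ.lt_iff_lt.2 a)
  simp only [φ.symm_apply_apply] at a3 a4
  generalize ((φ y).f (φ x).h).1 = i, (y.f x.h).1 = j at *
  revert i j
  decide

theorem rk (φ : T A ≃o T B) (β : K ⊕ ℝ) : ∀ {x y : T A}, x < y → (y.f x.h).2 = β →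
    ¬wr ((φ y).f (φ x).h).2 β := by
  induction β using (IsWellFounded.wf (r := wr)).induction with
  | _ β ih =>
  intro x y a e c
  obtain ⟨w, w1, w2, k⟩ := side φ a
  obtain ⟨r, r2, r3⟩ := exists_between (lt_iff.1 w1).2
  obtain ⟨p, p1, p2, -⟩ := mid w1.le r2 r3
  obtain ⟨-, j, k⟩ := k p p1 p2
  obtain ⟨z, z1, -, z3, -, -, z6⟩ := k (2, ((φ y).f (φ x).h).2)
    (fun e' => irrefl (r := wr) β (((congrArg Prod.snd e').trans e) ▸ c))
    (.inr (.inr ⟨_, j, .inr (.inl ⟨rfl, e ▸ c⟩)⟩))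
  have := cls φ z1
  rw [z3] at this
  rcases z6 with s | s | ⟨s, -⟩
  exacts [by simp [this] at s, ih _ c z1 (by rw [z3]) s.2, by simp [s] at this]

theorem lab (φ : T A ≃o T B) {x y : T A} (a : x < y) : (φ y).f (φ x).h = y.f x.h := by
  refine Prod.ext (cls φ a) ?_
  rcases trichotomous_of wr ((φ y).f (φ x).h).2 (y.f x.h).2 with h | h | h
  exacts [(rk φ _ a rfl h).elim, h, (rk φ.symm _ (φ.lt_iff_lt.2 a) rfl (by simpa)).elim]

theorem hle (φ : T A ≃o T B) (x : T A) : x.h ≤ (φ x).h := by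
  obtain ⟨y, a, -, e⟩ := ext x (m := (1, .inr x.h)) (.inr (.inl ⟨rfl, .inl rfl⟩)) (lt_add_one _)
  rw [← lab φ a] at e
  exact (φ y).good.code (lt_iff.1 (φ.lt_iff_lt.2 a)).2 (by simp [e]) (by rw [e])

theorem rigid (φ : T A ≃o T A) (x : T A) : φ x = x := by
  have h : ∀ x, (φ x).h = x.h := fun x => le_antisymm (by simpa using hle φ.symm (φ x)) (hle φ x)
  obtain ⟨m, a, b⟩ := meet x (φ x)
  have c : m ≤ x := a (.inl rfl)
  have d : m ≤ φ x := a (.inr rfl)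
  have e : φ m = m := le_antisymm (le_of_h (φ.le_iff_le.2 c) d (h m).le)
    (le_of_h d (φ.le_iff_le.2 c) (h m).ge)
  rcases c.eq_or_lt with rfl | c
  · exact e
  have := lab φ c
  rw [e] at this
  obtain ⟨w, i, j, k⟩ := (comp c (e ▸ φ.lt_iff_lt.2 c)).1 this.symm
  exact (i.not_ge (b (by rintro _ (rfl | rfl) <;> assumption))).elim

/-- An isomorphism of `T A` and `T B` preserves the marks. -/
theorem mark (φ : T A ≃o T B) (k : K) (hk : k ∈ A) : k ∈ B := by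
  by_contra hB
  have hh : ∀ x, (φ x).h = x.h := fun x => le_antisymm (by simpa using hle φ.symm (φ x)) (hle φ x)
  have c : ∀ t, cur (fun _ => (l0 : L K)) t l0 := fun _ => .of_forall fun _ => rfl
  let x : T A := mk (H := 0) ⟨⟨0, fun _ _ _ => rfl⟩, fun _ _ =>
    .of_forall fun _ => rfl, fun t _ => .inl (c t), finite_empty.subset fun t p => p.2.2 (c t)⟩
  obtain ⟨y, a, -, e⟩ := ext x (m := (1, .inr x.h)) (.inr (.inl ⟨rfl, .inl rfl⟩)) (lt_add_one _)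
  obtain ⟨w, w1, -, k1⟩ := side φ a
  obtain ⟨r, r2, r3⟩ := exists_between (lt_iff.1 w1).2
  obtain ⟨p, p1, p2, -⟩ := mid w1.le r2 r3
  obtain ⟨-, j, k1⟩ := k1 p p1 p2
  obtain ⟨z, z1, -, z3, -⟩ := k1 (2, .inl k) (fun e' => by simp [e] at e')
    (.inr (.inr ⟨_, j, .inr (.inl ⟨rfl, e ▸ Sum.Lex.sep _ _⟩)⟩))
  obtain ⟨w', w1', -, k2⟩ := side φ z1
  obtain ⟨r, n1, n2, r2, r3⟩ := exists_not_dy (lt_iff.1 w1').2
  obtain ⟨q, q1, q2, rfl⟩ := mid w1'.le r2 r3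
  obtain ⟨-, j', k2⟩ := k2 q q1 q2
  obtain ⟨v, v1, -, v3, -, -, v6⟩ := k2 (0, .inr q.h) (fun e' => by simp [z3] at e')
    (.inr (.inr ⟨_, j', .inr (.inr ⟨rfl, .inr ⟨by rw [z3], n2, fun k' hk' e' => by
      rw [z3] at e'
      exact (hk' (Sum.inl.inj e' ▸ hk)).elim⟩⟩)⟩))
  rw [lab φ z1, lab φ v1, z3, v3, hh] at v6
  rcases v6 with s | s | ⟨-, s | s⟩
  exacts [by simp at s, by simp at s, by simp at s, n1 (s.2.2 k hB rfl)]

end Pool.Agent.KS6_46.RT
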